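import Pool.Agent.Y118.HG.Kfin

/-!
# The Grothendieck period conjecture in bounded degree, without bound on the height, for almost all products of
hyperelliptic curves

`f_1, …, f_N ∈ ℚ[X]` are monic of degree `n = 2g` with `n` distinct real roots, all different from `0`, and `C_j(t)` is
the curve `y² = f_j(x) (x - 1/t)` of genus `g`, `t` a positive integer. The motivic torsor of
`C_1(t_1) × … × C_N(t_N)` (restricted to the spaces `H¹` and to the multiplier `lam`) is contained in the torsor below,
given by the polarisations alone. For all but `O(T^(N-c))` of the `N`-tuples of integers `t_j ≤ T` the period point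
satisfies no polynomial relation of degree `≤ d` over any number field of degree `≤ D` but those which hold on the torsor.
There is no condition on the height of the coefficients of the relations.
-/

set_option autoImplicit false

open Polynomial NumberField

namespace Pool.Agent.Results.MP_77d3f5_ag.HyperellipticAllHeights

variable {n N : ℕ}

/-- the branch points: `t` inserted at place `m` in the sequence of the `a i` -/
noncomputable def branch (a : Fin n → ℝ) (m : Fin (n + 1)) (t : ℝ) : Fin (n + 1) → ℝ :=
  Fin.insertNth (α := fun _ => ℝ) m t a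

/-- the period `∮ x^j dx / y`, `y² = ∏ (x - e i)`, over the loop around the segment `[e l, e (l + 1)]`, that is twice
the integral over the segment (principal branch of the square root) -/
noncomputable def period (e : Fin (n + 1) → ℝ) (l j : Fin n) : ℂ :=
  2 * ∫ x in (e l.castSucc)..(e l.succ), (x : ℂ) ^ (j : ℕ) / (((∏ i, (x - e i) : ℝ) : ℂ) ^ (1 / 2 : ℂ))

/-- the polarisation in terms of the forms `x^j dx / y`, `y² = F(x) = ∑ c_k x^k`: entries `(i - j)/2 * c_(i+j+2)` -/
noncomputable def polDR (n : ℕ) (F : ℚ[X]) : Matrix (Fin n) (Fin n) ℚ :=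
  Matrix.of fun i j => (((i : ℕ) : ℚ) - ((j : ℕ) : ℚ)) / 2 * F.coeff ((i : ℕ) + (j : ℕ) + 2)

/-- the polarisation in terms of the loops: `2 (-1)^r` at `(r, s)`, `|r - s| = 1` -/
def polB (n : ℕ) : Matrix (Fin n) (Fin n) ℚ :=
  Matrix.of fun r s => if (r : ℕ) = s + 1 ∨ (s : ℕ) = r + 1 then 2 * (-1) ^ (r : ℕ) else 0

/-- the point with coordinates the entries of the matrices `X j` and `lam` -/
def point (X : Fin N → Matrix (Fin n) (Fin n) ℂ) (lam : ℂ) : Option (Fin N × Fin n × Fin n) → ℂ :=
  fun o => o.elim lam fun x => X x.1 x.2.1 x.2.2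

/-- the complex points of the torsor of the curves `y² = F_j(x)`: matrices `X_j` and `lam ≠ 0` with
`X_j polDR(F_j) X_jᵀ = lam polB` (a torsor under `{(g_1, …, g_N) : g_j ∈ GSp_(2g), equal multipliers}`) -/
def Torsor (F : Fin N → ℚ[X]) : Set ((Fin N → Matrix (Fin n) (Fin n) ℂ) × ℂ) :=
  {x | x.2 ≠ 0 ∧ ∀ j, x.1 j * (polDR n (F j)).map (algebraMap ℚ ℂ) * (x.1 j).transpose =
    x.2 • (polB n).map (algebraMap ℚ ℂ)}

/-- every polynomial `P` of degree `≤ d` with coefficients in a number field of degree `≤ D` (any such field, no bound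
on the height of the coefficients) with `P(c) = 0` vanishes on the torsor -/
def DegreeGPC (F : Fin N → ℚ[X]) (c : Option (Fin N × Fin n × Fin n) → ℂ) (D d : ℕ) : Prop :=
  ∀ (K : Type) [Field K] [NumberField K] (φ : K →+* ℂ) (P : MvPolynomial (Option (Fin N × Fin n × Fin n)) K),
    Module.finrank ℚ K ≤ D → P.totalDegree ≤ d → (P.map φ).eval c = 0 →
    ∀ x ∈ Torsor (n := n) F, (P.map φ).eval (point x.1 x.2) = 0

/-- Let `f_j ∈ ℚ[X]`, `j < N`, be monic of even degree `n` with distinct real roots `a_j`, all different from `0`; `m_j` is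
the place of `0` among the roots. For all `D`, `d` there are `c > 0`, `M` such that for all `T ≥ 1` all but
`M T^(N-c)` of the `N`-tuples of integers `1 ≤ t_j ≤ T` satisfy: the `1 / t_j` are in the same gaps, the point formed by
the period matrices of the curves `y² = f_j(x) (x - 1/t_j)` and by `2πi` is on the torsor, and all the relations of degree
`≤ d` over number fields of degree `≤ D` which hold at the point hold on the torsor. -/
theorem result (hn : Even n) (a : Fin N → Fin n → ℝ) (f : Fin N → ℚ[X])
    (hf : ∀ j, (f j).map (algebraMap ℚ ℝ) = ∏ i, (X - C (a j i))) (m : Fin N → Fin (n + 1))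
    (h0 : ∀ j, StrictMono (branch (a j) (m j) 0)) (D d : ℕ) :
    ∃ c M : ℝ, 0 < c ∧ ∀ T : ℕ, 1 ≤ T → ∃ S : Finset (Fin N → ℕ), (S.card : ℝ) ≤ M * (T : ℝ) ^ ((N : ℝ) - c) ∧
      ∀ t : Fin N → ℕ, (∀ j, 1 ≤ t j ∧ t j ≤ T) → t ∉ S →
        (∀ j, StrictMono (branch (a j) (m j) (1 / (t j : ℝ)))) ∧
        ((fun j => Matrix.of (period (branch (a j) (m j) (1 / (t j : ℝ))))), (2 * Real.pi * Complex.I : ℂ)) ∈
          Torsor (n := n) (fun j => f j * (X - C (1 / (t j : ℚ)))) ∧
        DegreeGPC (fun j => f j * (X - C (1 / (t j : ℚ))))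
          (point (fun j => Matrix.of (period (branch (a j) (m j) (1 / (t j : ℝ))))) (2 * Real.pi * Complex.I)) D d :=
  Pool.Agent.Y118.HG.kfin hn a f hf m h0 D d

end Pool.Agent.Results.MP_77d3f5_ag.HyperellipticAllHeights
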