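import Pool.Agent.Y118.HP.Fin

/-!
# The Grothendieck period conjecture in bounded degree and height for almost all products of hyperelliptic curves

`f_1, …, f_N ∈ ℚ[X]` are monic of degree `n = 2g` with `n` distinct real roots, `C_j(t)` is the curve
`y² = f_j(x) (x - t)` of genus `g`, `t` rational. The motivic torsor of `C_1(t_1) × … × C_N(t_N)` (restricted to the
spaces `H¹` and to the multiplier `lam`) is contained in the torsor below, given by the polarisations alone. Outside a
sparse set of `N`-tuples `(t_1, …, t_N)` every polynomial relation of bounded degree and height, over any number field of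
bounded degree, between the periods and `2πi` holds on the whole torsor; this is so even for relations which hold only
approximately.
-/

set_option autoImplicit false

open Polynomial NumberField

namespace Pool.Agent.Results.MP_77d3f5_ag.HyperellipticPeriods

variable {n N : ℕ}

/-- the branch points: `t` inserted at place `m` in the sequence of the `a i` -/
noncomputable def branch (a : Fin n → ℝ) (m : Fin (n + 1)) (t : ℝ) : Fin (n + 1) → ℝ :=
  Fin.insertNth (α := fun _ => ℝ) m t a

/-- the period `∮ x^j dx / y`, `y² = ∏ (x - e i)`, over the loop around the segment `[e l, e (l + 1)]`, that is twice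
the integral over the segment (principal branch of the square root) -/
noncomputable def period (e : Fin (n + 1) → ℝ) (l j : Fin n) : ℂ :=
  2 * ∫ x in (e l.castSucc)..(e l.succ), (x : ℂ) ^ (j : ℕ) / (((∏ i, (x - e i) : ℝ) : ℂ) ^ (1 / 2 : ℂ))

/-- the polarisation in terms of the forms `x^j dx / y`, `y² = F(x) = ∑ c_k x^k`: entries `(i - j)/2 * c_(i+j+2)` -/
noncomputable def polDR (n : ℕ) (F : ℚ[X]) : Matrix (Fin n) (Fin n) ℚ :=
  Matrix.of fun i j => (((i : ℕ) : ℚ) - ((j : ℕ) : ℚ)) / 2 * F.coeff ((i : ℕ) + (j : ℕ) + 2)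

/-- the polarisation in terms of the loops: `2 (-1)^r` at `(r, s)`, `|r - s| = 1` -/
def polB (n : ℕ) : Matrix (Fin n) (Fin n) ℚ :=
  Matrix.of fun r s => if (r : ℕ) = s + 1 ∨ (s : ℕ) = r + 1 then 2 * (-1) ^ (r : ℕ) else 0

/-- the point with coordinates the entries of the matrices `X j` and `lam` -/
def point (X : Fin N → Matrix (Fin n) (Fin n) ℂ) (lam : ℂ) : Option (Fin N × Fin n × Fin n) → ℂ :=
  fun o => o.elim lam fun x => X x.1 x.2.1 x.2.2

/-- the complex points of the torsor of the curves `y² = F_j(x)`: matrices `X_j` and `lam ≠ 0` with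
`X_j polDR(F_j) X_jᵀ = lam polB` (a torsor under `{(g_1, …, g_N) : g_j ∈ GSp_(2g), equal multipliers}`) -/
def Torsor (F : Fin N → ℚ[X]) : Set ((Fin N → Matrix (Fin n) (Fin n) ℂ) × ℂ) :=
  {x | x.2 ≠ 0 ∧ ∀ j, x.1 j * (polDR n (F j)).map (algebraMap ℚ ℂ) * (x.1 j).transpose =
    x.2 • (polB n).map (algebraMap ℚ ℂ)}

/-- every polynomial `P` of degree `≤ d` with coefficients in the ring of integers of a number field of degree `≤ D`,
all conjugates of the coefficients being `≤ H` in absolute value, with `|P(c)| ≤ ε`, vanishes on the torsor -/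
def BoundedGPC (F : Fin N → ℚ[X]) (c : Option (Fin N × Fin n × Fin n) → ℂ) (D d : ℕ) (H ε : ℝ) : Prop :=
  ∀ (K : Type) [Field K] [NumberField K] (φ : K →+* ℂ) (P : MvPolynomial (Option (Fin N × Fin n × Fin n)) (𝓞 K)),
    Module.finrank ℚ K ≤ D → P.totalDegree ≤ d →
    (∀ s (ψ : K →+* ℂ), ‖ψ (algebraMap (𝓞 K) K (P.coeff s))‖ ≤ H) →
    ‖(P.map (φ.comp (algebraMap (𝓞 K) K))).eval c‖ ≤ ε →
    ∀ x ∈ Torsor (n := n) F, (P.map (φ.comp (algebraMap (𝓞 K) K))).eval (point x.1 x.2) = 0

/-- Let `f_j ∈ ℚ[X]` be monic of even degree `n` with distinct real roots `a_j`, and `[α_j, β_j]` intervals without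
roots of `f_j`. For all `D`, `d`, `A` there are `γ < 2`, `B`, `M` such that for `T ≥ 1` all but `M T^(2(N-1)+γ)` of the
`N`-tuples of rationals `t_j ∈ [α_j, β_j]` of denominator `≤ T` satisfy: the point formed by the period matrices of the
curves `y² = f_j(x) (x - t_j)` and by `2πi` is on the torsor, and all relations of degree `≤ d` and size `≤ T^A` over
number fields of degree `≤ D`, up to an error `T^(-B)`, hold on the torsor. -/
theorem result (hn : Even n) (hN : 1 ≤ N) (a : Fin N → Fin n → ℝ) (f : Fin N → ℚ[X])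
    (hf : ∀ j, (f j).map (algebraMap ℚ ℝ) = ∏ i, (X - C (a j i))) (m : Fin N → Fin (n + 1)) (α β : Fin N → ℝ)
    (hαβ : ∀ j, α j < β j) (hgap : ∀ j, ∀ t ∈ Set.Icc (α j) (β j), StrictMono (branch (a j) (m j) t))
    (D d : ℕ) (A : ℝ) :
    ∃ γ B M : ℝ, γ < 2 ∧ ∀ T : ℝ, 1 ≤ T → ∃ S : Set (Fin N → ℚ), S.Finite ∧
      (S.ncard : ℝ) ≤ M * T ^ (2 * ((N : ℝ) - 1) + γ) ∧
      ∀ t : Fin N → ℚ, (∀ j, (t j : ℝ) ∈ Set.Icc (α j) (β j) ∧ ((t j).den : ℝ) ≤ T) →
        ((fun j => Matrix.of (period (branch (a j) (m j) (t j : ℝ)))), (2 * Real.pi * Complex.I : ℂ)) ∈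
          Torsor (n := n) (fun j => f j * (X - C (t j))) ∧
        (t ∉ S → BoundedGPC (fun j => f j * (X - C (t j)))
          (point (fun j => Matrix.of (period (branch (a j) (m j) (t j : ℝ)))) (2 * Real.pi * Complex.I))
          D d (T ^ A) (T ^ (-B))) :=
  Pool.Agent.Y118.HP.fin_main hn hN a f hf m α β hαβ hgap D d A

end Pool.Agent.Results.MP_77d3f5_ag.HyperellipticPeriods
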