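import Pool.Agent.Y118.HG.Kx

/-!
# The Grothendieck period conjecture in bounded degree for hyperelliptic curves: windows with few exceptional fibres

`f ∈ ℚ[X]` is monic of degree `n = 2g` with `n` distinct real roots, all different from `0`, and `C(z)` is the curve
`y² = f(x) (x - z)` of genus `g`. The central fibre is `C(0)`. In each window `z = 1/(t - G u)`, `1 ≤ u ≤ H`, `t` large
compared to `H`, all the fibres and all the products of `k` distinct fibres satisfy the period conjecture in degree `≤ d`
over all number fields of degree `≤ D`, with no bound on the height, except for a set `S` of fibres whose number is at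
most the transcendence degree of the periods of the central fibre, in particular at most `dim GSp_2g = n (n + 1) / 2 + 1`;
this bound does not depend on `k`, `D`, `d`, `H`, `t`. Moreover the relations of degree `≤ d` between the periods of the
central fibre and those of the `k` fibres are consequences of the relations of the central fibre and of the torsor.
-/

set_option autoImplicit false

open Polynomial NumberField

namespace Pool.Agent.Results.MP_77d3f5_ag.HyperellipticWindows

variable {n N : ℕ}

/-- the branch points: `t` inserted at place `m` in the sequence of the `a i` -/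
noncomputable def branch (a : Fin n → ℝ) (m : Fin (n + 1)) (t : ℝ) : Fin (n + 1) → ℝ :=
  Fin.insertNth (α := fun _ => ℝ) m t a

/-- the period `∮ x^j dx / y`, `y² = ∏ (x - e i)`, over the loop around the segment `[e l, e (l + 1)]`, that is twice
the integral over the segment (principal branch of the square root) -/
noncomputable def period (e : Fin (n + 1) → ℝ) (l j : Fin n) : ℂ :=
  2 * ∫ x in (e l.castSucc)..(e l.succ), (x : ℂ) ^ (j : ℕ) / (((∏ i, (x - e i) : ℝ) : ℂ) ^ (1 / 2 : ℂ))

/-- the polarisation in terms of the forms `x^j dx / y`, `y² = F(x) = ∑ c_k x^k`: entries `(i - j)/2 * c_(i+j+2)` -/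
noncomputable def polDR (n : ℕ) (F : ℚ[X]) : Matrix (Fin n) (Fin n) ℚ :=
  Matrix.of fun i j => (((i : ℕ) : ℚ) - ((j : ℕ) : ℚ)) / 2 * F.coeff ((i : ℕ) + (j : ℕ) + 2)

/-- the polarisation in terms of the loops: `2 (-1)^r` at `(r, s)`, `|r - s| = 1` -/
def polB (n : ℕ) : Matrix (Fin n) (Fin n) ℚ :=
  Matrix.of fun r s => if (r : ℕ) = s + 1 ∨ (s : ℕ) = r + 1 then 2 * (-1) ^ (r : ℕ) else 0

/-- the point with coordinates the entries of the matrices `X j` and `lam` -/
def point (X : Fin N → Matrix (Fin n) (Fin n) ℂ) (lam : ℂ) : Option (Fin N × Fin n × Fin n) → ℂ :=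
  fun o => o.elim lam fun x => X x.1 x.2.1 x.2.2

/-- the complex points of the torsor of the curves `y² = F_j(x)`: matrices `X_j` and `lam ≠ 0` with
`X_j polDR(F_j) X_jᵀ = lam polB` (a torsor under `{(g_1, …, g_N) : g_j ∈ GSp_(2g), equal multipliers}`) -/
def Torsor (F : Fin N → ℚ[X]) : Set ((Fin N → Matrix (Fin n) (Fin n) ℂ) × ℂ) :=
  {x | x.2 ≠ 0 ∧ ∀ j, x.1 j * (polDR n (F j)).map (algebraMap ℚ ℂ) * (x.1 j).transpose =
    x.2 • (polB n).map (algebraMap ℚ ℂ)}

/-- every polynomial `P` of degree `≤ d` with coefficients in a number field of degree `≤ D` (any such field, no bound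
on the height of the coefficients) with `P(c) = 0` vanishes on the torsor -/
def DegreeGPC (F : Fin N → ℚ[X]) (c : Option (Fin N × Fin n × Fin n) → ℂ) (D d : ℕ) : Prop :=
  ∀ (K : Type) [Field K] [NumberField K] (φ : K →+* ℂ) (P : MvPolynomial (Option (Fin N × Fin n × Fin n)) K),
    Module.finrank ℚ K ≤ D → P.totalDegree ≤ d → (P.map φ).eval c = 0 →
    ∀ x ∈ Torsor (n := n) F, (P.map φ).eval (point x.1 x.2) = 0

/-- relations with the periods `c0` of the central fibre: every polynomial `P` of degree `≤ d` with coefficients in a
number field of degree `≤ D` with `P(c0, c) = 0` vanishes at `(c0, x)` for all the points `x` of the torsor with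
`lam = 2πi` -/
def RelativeGPC (c0 : Fin n × Fin n → ℂ) (F : Fin N → ℚ[X]) (c : Option (Fin N × Fin n × Fin n) → ℂ) (D d : ℕ) : Prop :=
  ∀ (K : Type) [Field K] [NumberField K] (φ : K →+* ℂ)
    (P : MvPolynomial ((Fin n × Fin n) ⊕ Option (Fin N × Fin n × Fin n)) K),
    Module.finrank ℚ K ≤ D → P.totalDegree ≤ d → (P.map φ).eval (Sum.elim c0 c) = 0 →
    ∀ x ∈ Torsor (n := n) F, x.2 = 2 * Real.pi * Complex.I → (P.map φ).eval (Sum.elim c0 (point x.1 x.2)) = 0

/-- the field generated by the periods of the central fibre `y² = f(x) x` and by `2πi` -/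
noncomputable def centralField (a : Fin n → ℝ) (m : Fin (n + 1)) : IntermediateField ℚ ℂ :=
  IntermediateField.adjoin ℚ
    (Set.range (point (fun _ : Fin 1 => Matrix.of (period (branch a m 0))) (2 * Real.pi * Complex.I)))

/-- Let `f ∈ ℚ[X]` be monic of even degree `n` with distinct real roots `a`, all different from `0`; `m` is the place of
`0` among the roots. There is `G0` such that for all `G ≥ G0` and all `k`, `D`, `d` there is `E` such that for all `H` and
all `t ≥ (H + 2)^E`: the `1 / (t - G u)`, `u ≤ H`, are in the gap of `0`, and there is a set `S` of integers such that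
(1) the number of elements of `S` is at most the transcendence degree of the field of periods of the central fibre
`y² = f(x) x`, and at most `n (n + 1) / 2 + 1`, the dimension of `GSp_n`; (2) for all `k`-tuples of distinct
`1 ≤ u_j ≤ H`, `u_j ∉ S`, the point formed by the period matrices of the curves `y² = f(x) (x - 1 / (t - G u_j))` and by
`2πi` is on the torsor, all the relations of degree `≤ d` over number fields of degree `≤ D` which hold at the point
hold on the torsor, and all the relations of degree `≤ d` over number fields of degree `≤ D` between the coordinates of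
the point and the periods of the central fibre hold for all the points of the torsor with `lam = 2πi`. -/
theorem result (hn : Even n) (a : Fin n → ℝ) (f : ℚ[X])
    (hf : f.map (algebraMap ℚ ℝ) = ∏ i, (X - C (a i))) (m : Fin (n + 1)) (h0 : StrictMono (branch a m 0)) :
    ∃ G0 : ℕ, ∀ G : ℕ, G0 ≤ G → ∀ k D d : ℕ, ∃ E : ℕ, ∀ H t : ℕ, (H + 2) ^ E ≤ t →
      (∀ u : ℕ, u ≤ H → G * u < t ∧ StrictMono (branch a m (1 / ((t : ℝ) - G * u)))) ∧
      ∃ S : Finset ℕ,
        (S.card : Cardinal) ≤ Algebra.trdeg ℚ (centralField a m) ∧
        2 * S.card ≤ n * (n + 1) + 2 ∧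
        ∀ u : Fin k → ℕ, Function.Injective u → (∀ j, 1 ≤ u j ∧ u j ≤ H ∧ u j ∉ S) →
          ((fun j => Matrix.of (period (branch a m (1 / ((t : ℝ) - G * u j))))), (2 * Real.pi * Complex.I : ℂ)) ∈
            Torsor (n := n) (fun j => f * (X - C (1 / ((t : ℚ) - G * u j)))) ∧
          DegreeGPC (fun j => f * (X - C (1 / ((t : ℚ) - G * u j))))
            (point (fun j => Matrix.of (period (branch a m (1 / ((t : ℝ) - G * u j))))) (2 * Real.pi * Complex.I))
            D d ∧
          RelativeGPC (fun x => period (branch a m 0) x.1 x.2) (fun j => f * (X - C (1 / ((t : ℚ) - G * u j))))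
            (point (fun j => Matrix.of (period (branch a m (1 / ((t : ℝ) - G * u j))))) (2 * Real.pi * Complex.I))
            D d :=
  Pool.Agent.Y118.HG.wfinK hn a f hf m h0

end Pool.Agent.Results.MP_77d3f5_ag.HyperellipticWindows
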