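import Pool.Agent.Y890.SM.Inst

/-!
Grothendieck's period conjecture in bounded degree and height for the fibres of families with symplectic monodromy:
outside few hypersurfaces of the base, of small degree, the relations over number fields between the periods and
`2 π i` hold on the torsor of the generic Mumford-Tate group.
-/

namespace Pool.Agent.Results.MP_77d3f5_ag.SymplecticMonodromy

open Filter Pool.Agent Pool.Agent.Y890.MV Pool.Agent.Y890.SM

/-- (1) Let `F` be a family with symplectic monodromy over an open subset `U` of `ℂ ^ X` (`SympFam`): matrices `P i x` of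
analytic functions (periods), with `P i * Q i * (P i)ᵀ = (2 π i) ^ w i J i` for alternating matrices `Q i` over `ℚ̄[x]` and
`J i` over `ℚ`, the relations of which over `ℂ[x]` are invariant under a set of rational matrices (monodromy) which is
Zariski dense in the product of the symplectic groups of the `J i`. Then `(P x, 2 π i)` is a point of the torsor
`{(Y, μ) | μ ≠ 0, Y i * Q i(x) * (Y i)ᵀ = μ ^ w i J i}` (`torsor`). There is `ω → ∞` such that for all large `T`, all
number fields `K` of degree at most `ω T`, embedded in `ℂ`, and all complex numbers `ξ a`, `a < ω T`: the points of `U`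
with coordinates in `K` of height at most `T`, of norm at most `ω T` and at distance at least `1 / ω T` from the
complement of `U`, at which some relation of degree at most `ω T` (in each entry), with coefficients in the integers of
`K` of size at most `T ^ ω T`, between the periods and the powers of `2 π i` (`a`-th power, `a < ω T`) does not hold on
the torsor, or between the periods and the `ξ a` does not hold at the `(Y, 2 π i)` in the torsor (`Exceptional`), lie on
at most `T ^ (1 / ω T)` hypersurfaces of degree at most `T ^ (1 / ω T)`; and there are at most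
`T ^ (1 / ω T) * N ^ (|X| - 1)` of them, `N` being the number of elements of `K` of height at most `T`.
(2) The period matrices of all products of hyperelliptic curves `y² = ∏ (x - e i r)`, `r ≤ n i`, `n i` even, with branch
points `e i r` of increasing real parts, are such a family, with `w i = 1`. -/
theorem result :
    (∀ (X : Type) [Fintype X] [DecidableEq X] [Nonempty X] (ι : Type) [Fintype ι] [DecidableEq ι] (n : ι → ℕ)
      (F : SympFam X n),
      (∀ x ∈ F.U, ((fun i => F.P i x), tpi) ∈ F.torsor x) ∧
      ∃ (ω : ℝ → ℕ) (T₀ : ℝ), Tendsto ω atTop atTop ∧ Monotone ω ∧ ∀ T, T₀ ≤ T → 0 < ω T ∧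
        ∀ (K : Type) [Field K] [NumberField K], Module.finrank ℚ K ≤ ω T → ∀ (io : K →+* ℂ) (ξ : Fin (ω T) → ℂ),
          Y124.Cov ⌊T ^ ((ω T : ℝ)⁻¹)⌋₊ ⌊T ^ ((ω T : ℝ)⁻¹)⌋₊
            ((fun (e : X → K) j => io (e j)) '' F.Exceptional (ω T) K io ξ T) ∧
          (F.Exceptional (ω T) K io ξ T).Finite ∧
          ((F.Exceptional (ω T) K io ξ T).ncard : ℝ) ≤
            T ^ ((ω T : ℝ)⁻¹) * ({x : K | Y120.HtLe K T x}.ncard : ℝ) ^ (Fintype.card X - 1)) ∧
    ∀ (ι : Type) [Fintype ι] [DecidableEq ι] (n : ι → ℕ), (∀ i, Even (n i)) →
      ∃ F : SympFam (Σ i, Fin (n i + 1)) n, F.U = Y890.HE.Conf n ∧ (∀ i, F.w i = 1) ∧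
        ∀ i e, F.P i e = Y890.HE.pm n e i :=
  ⟨fun _ _ _ _ _ _ _ _ F => ⟨fun _ hx => F.mem hx, F.main⟩,
    fun _ _ _ n hn => ⟨hyp n hn, rfl, fun _ => rfl, fun _ _ => rfl⟩⟩

end Pool.Agent.Results.MP_77d3f5_ag.SymplecticMonodromy
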